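import Mathlib
import Pool.Agent.X203.VLG

open MeasureTheory Filter Topology ComplexConjugate
open scoped ENNReal

set_option linter.unusedSectionVars false

namespace Pool.Agent.Results.MP_c47ae4_an.RieszMeans

open Pool.Agent.X203.VL

variable (m : ℕ → ℕ) [∀ k, NeZero (m k)]

/-- `r_k(x) = exp(2πi x_k / m_k)` on `G_m = ∏ Fin (m k)` -/
noncomputable def rad (k : ℕ) (x : Gm m) : ℂ :=
  Complex.exp (2 * Real.pi * Complex.I * ((x k : ℕ) : ℂ) / (m k : ℂ))

/-- the Vilenkin function `ψ_n = ∏_k r_k^{n_k}`, where `n_k = dig m k n` are the digits of `n`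
(they vanish for `k ≥ n`, so that the product may be taken over `k < n`) -/
noncomputable def psi (n : ℕ) (x : Gm m) : ℂ :=
  ∏ k ∈ Finset.range n, rad m k x ^ dig m k n

/-- martingales with respect to `F_n`, the σ-algebra generated by the first `n` coordinates:
`f n` depends only on the first `n` coordinates, and averaging `f (n+1)` over the coordinate
number `n` gives `f n` -/
structure IsMartingale (f : ℕ → Gm m → ℂ) : Prop where
  adapted : ∀ n x y, (∀ k < n, x k = y k) → f n x = f n y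
  average : ∀ n x, (1 / (m n : ℂ)) * ∑ c : Fin (m n), f (n + 1) (Function.update x n c) = f n x

/-- Fourier coefficients of a martingale -/
noncomputable def coeff (f : ℕ → Gm m → ℂ) (i : ℕ) : ℂ :=
  limUnder atTop (fun k => ∫ x, f k x * conj (psi m i x) ∂(mu m))

/-- partial sums `S_n f` -/
noncomputable def partialSum (f : ℕ → Gm m → ℂ) (n : ℕ) (x : Gm m) : ℂ :=
  ∑ i ∈ Finset.range n, coeff m f i * psi m i x

/-- `l_n = ∑_{k=1}^n 1/k` -/
noncomputable def logNorm (n : ℕ) : ℝ := ∑ k ∈ Finset.Icc 1 n, 1 / (k : ℝ)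

/-- Riesz logarithmic means `R_n f = (1/l_n) ∑_{k=1}^n S_k f / k` -/
noncomputable def riesz (f : ℕ → Gm m → ℂ) (n : ℕ) (x : Gm m) : ℂ :=
  (1 / (logNorm n : ℂ)) * ∑ k ∈ Finset.Icc 1 n, partialSum m f k x / (k : ℂ)

/-- the `L_p` quasi-norm, `0 < p < ∞` -/
noncomputable def lpNorm (p : ℝ) (g : Gm m → ℂ) : ℝ≥0∞ := (∫⁻ x, ‖g x‖ₑ ^ p ∂(mu m)) ^ (1 / p)

/-- the `H_p` quasi-norm `‖f^*‖_p`, `f^* = sup_n |f^{(n)}|` -/
noncomputable def hpNorm (p : ℝ) (f : ℕ → Gm m → ℂ) : ℝ≥0∞ :=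
  (∫⁻ x, (⨆ n, ‖f n x‖ₑ) ^ p ∂(mu m)) ^ (1 / p)

variable {m} (hm : ∀ k, 2 ≤ m k)

/-- the digit version of a martingale -/
def FF (f : ℕ → Gm m → ℂ) (j x : ℕ) : ℂ := f j (pt m x)

include hm in
lemma FF_mart {f : ℕ → Gm m → ℂ} (hf : IsMartingale m f) : Mart m (FF f) where
  res j x := by
    apply hf.adapted
    intro k hk
    apply Fin.ext
    exact (dig_mod hm hk x).symm
  avg j x hx := by
    have h := hf.average j (pt m x)
    have hmj : (m j : ℂ) ≠ 0 := by exact_mod_cast NeZero.ne (m j)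
    have h1 : ∑ c ∈ Finset.range (m j), FF f (j + 1) (x + c * MM m j) =
        ∑ c : Fin (m j), f (j + 1) (Function.update (pt m x) j c) := by
      rw [Finset.sum_range]
      refine Finset.sum_congr rfl fun c _ => ?_
      apply hf.adapted
      intro k hk
      rcases Nat.lt_succ_iff_lt_or_eq.mp hk with h2 | h2
      · rw [Function.update_of_ne (by omega)]
        apply Fin.ext
        exact dig_add_lt hm h2 _ _
      · subst h2
        rw [Function.update_self]
        apply Fin.ext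
        exact dig_add_eq hm hx c.2
    rw [h1]
    show _ = (m j : ℂ) * f j (pt m x)
    rw [← h]
    field_simp

include hm in
lemma dig_big {i k : ℕ} (h : i < MM m k) {k' : ℕ} (hk : k ≤ k') : dig m k' i = 0 := by
  unfold dig
  rw [Nat.div_eq_of_lt (lt_of_lt_of_le h (MM_mono hm hk)), Nat.zero_mod]

include hm in
lemma psi_eq {n i : ℕ} (hi : i < MM m n) (x : Gm m) :
    psi m i x = ∏ k ∈ Finset.range n, rad m k x ^ dig m k i := by
  unfold psi
  have h1 : ∀ a b : ℕ, i < MM m a → a ≤ b → ∏ k ∈ Finset.range a, rad m k x ^ dig m k i =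
      ∏ k ∈ Finset.range b, rad m k x ^ dig m k i := by
    intro a b ha hab
    apply Finset.prod_subset (Finset.range_subset_range.mpr hab)
    intro k _ hk
    rw [Finset.mem_range, not_lt] at hk
    rw [dig_big hm ha hk, pow_zero]
  rw [h1 i (max i n) (lt_MM hm i) (le_max_left _ _), h1 n (max i n) hi (le_max_right _ _)]

include hm in
lemma psi_dep {n i : ℕ} (hi : i < MM m n) : Dep m n (psi m i) := by
  intro x y h
  rw [psi_eq hm hi, psi_eq hm hi]
  refine Finset.prod_congr rfl fun k hk => ?_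
  unfold rad
  rw [h k (Finset.mem_range.mp hk)]

include hm in
lemma psi_pt {n i : ℕ} (hi : i < MM m n) (t : ℕ) : psi m i (pt m t) = Psi m n i t := by
  rw [psi_eq hm hi]
  unfold Psi
  refine Finset.prod_congr rfl fun k _ => ?_
  have h1 : rad m k (pt m t) = om m k ^ dig m k t := by
    unfold rad om
    rw [← Complex.exp_nat_mul]
    congr 1
    show 2 * Real.pi * Complex.I * ((dig m k t : ℕ) : ℂ) / (m k : ℂ) = _
    ring
  rw [h1, ← pow_mul, mul_comm]

include hm in
lemma coeff_eq {f : ℕ → Gm m → ℂ} (hf : IsMartingale m f) {n i : ℕ} (hi : i < MM m n) :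
    coeff m f i = co m n (FF f n) i := by
  have hlev : ∀ k, n ≤ k → ∫ x, f k x * conj (psi m i x) ∂(mu m) = co m k (FF f k) i := by
    intro k hk
    have hik : i < MM m k := lt_of_lt_of_le hi (MM_mono hm hk)
    have hdep : Dep m k (fun x => f k x * conj (psi m i x)) := by
      intro x y h
      simp only
      rw [hf.adapted k x y h, psi_dep hm hik x y h]
    rw [cint hm hdep]
    unfold co
    congr 1
    refine Finset.sum_congr rfl fun t _ => ?_
    rw [psi_pt hm hik]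
    rfl
  have hstep : ∀ k, n ≤ k → ∫ x, f (k + 1) x * conj (psi m i x) ∂(mu m) =
      ∫ x, f k x * conj (psi m i x) ∂(mu m) := by
    intro k hk
    have hik : i < MM m k := lt_of_lt_of_le hi (MM_mono hm hk)
    have hik1 : i < MM m (k + 1) := lt_of_lt_of_le hik (MM_mono hm (Nat.le_succ k))
    have hdep1 : Dep m (k + 1) (fun x => f (k + 1) x * conj (psi m i x)) := by
      intro x y h
      simp only
      rw [hf.adapted (k + 1) x y h, psi_dep hm hik1 x y h]
    have hdep2 : Dep m (k + 1) (fun x => f k x * conj (psi m i x)) := by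
      intro x y h
      simp only
      rw [hf.adapted k x y (fun j hj => h j (by omega)), psi_dep hm hik1 x y h]
    rw [cint hm hdep1, cint hm hdep2]
    congr 1
    rw [← sub_eq_zero, ← Finset.sum_sub_distrib]
    have h1 := mart_sum hm (FF_mart hm hf) (Nat.lt_succ_self k) (fun u => conj (psi m i (pt m u)))
    rw [← h1]
    refine Finset.sum_congr rfl fun x _ => ?_
    have h2 : psi m i (pt m (x % MM m k)) = psi m i (pt m x) := by
      apply psi_dep hm hik
      intro j hj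
      apply Fin.ext
      exact dig_mod hm hj x
    rw [h2]
    show f (k + 1) (pt m x) * conj (psi m i (pt m x)) - f k (pt m x) * conj (psi m i (pt m x)) = _
    unfold FF
    ring
  have hconst : ∀ k, n ≤ k → ∫ x, f k x * conj (psi m i x) ∂(mu m) =
      ∫ x, f n x * conj (psi m i x) ∂(mu m) := by
    intro k hk
    induction k, hk using Nat.le_induction with
    | base => rfl
    | succ k hk ih => rw [hstep k hk, ih]
  unfold coeff
  rw [← hlev n le_rfl]
  apply Tendsto.limUnder_eq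
  apply tendsto_const_nhds.congr'
  filter_upwards [eventually_ge_atTop n] with k hk
  exact (hconst k hk).symm

lemma logNorm_eq (n : ℕ) : logNorm n = har n := by
  unfold logNorm har
  induction n with
  | zero => simp
  | succ n ih =>
    rw [Finset.sum_Icc_succ_top (by omega), ih, Finset.sum_range_succ]
    push_cast; rfl

lemma swap_sum (a : ℕ → ℂ) (M : ℕ) :
    ∑ k ∈ Finset.Icc 1 M, (∑ i ∈ Finset.range k, a i) / (k : ℂ) =
      ∑ i ∈ Finset.range M, ((har M - har i : ℝ) : ℂ) * a i := by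
  induction M with
  | zero => simp
  | succ M ih =>
    rw [Finset.sum_Icc_succ_top (by omega), ih]
    have h1 : ∀ i, ((har (M + 1) - har i : ℝ) : ℂ) * a i =
        ((har M - har i : ℝ) : ℂ) * a i + a i / ((M + 1 : ℕ) : ℂ) := by
      intro i
      have : har (M + 1) = har M + 1 / ((M : ℝ) + 1) := by
        unfold har; rw [Finset.sum_range_succ]
      rw [this]
      push_cast
      ring
    rw [Finset.sum_congr rfl fun i _ => h1 i, Finset.sum_add_distrib, ← Finset.sum_div]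
    congr 1
    rw [Finset.sum_range_succ]
    simp

lemma riesz_eq (f : ℕ → Gm m → ℂ) (M : ℕ) (y : Gm m) : riesz m f M y =
    (1 / (har M : ℂ)) * ∑ i ∈ Finset.range M,
      ((har M - har i : ℝ) : ℂ) * (coeff m f i * psi m i y) := by
  unfold riesz partialSum
  rw [logNorm_eq, swap_sum]

include hm in
lemma riesz_dep (f : ℕ → Gm m → ℂ) (n : ℕ) : Dep m n (riesz m f (MM m n)) := by
  intro x y h
  rw [riesz_eq, riesz_eq]
  congr 1
  refine Finset.sum_congr rfl fun i hi => ?_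
  rw [psi_dep hm (Finset.mem_range.mp hi) x y h]

include hm in
lemma riesz_top {f : ℕ → Gm m → ℂ} (hf : IsMartingale m f) (n x : ℕ) :
    riesz m f (MM m n) (pt m x) = Top m n (cw m n) (FF f n) x := by
  rw [riesz_eq]
  unfold Pool.Agent.X203.VL.Top
  rw [Finset.mul_sum]
  refine Finset.sum_congr rfl fun i hi => ?_
  have hi' := Finset.mem_range.mp hi
  rw [psi_pt hm hi', coeff_eq hm hf hi']
  unfold cw
  push_cast
  ring

lemma enorm_rpow (z : ℂ) {p : ℝ} (hp : 0 ≤ p) : ‖z‖ₑ ^ p = ENNReal.ofReal (‖z‖ ^ p) := by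
  rw [← ofReal_norm, ENNReal.ofReal_rpow_of_nonneg (norm_nonneg _) hp]

include hm in
theorem main_ineq {B : ℝ} (hB : ∀ k, (m k : ℝ) ≤ B) {p : ℝ} (hp : 0 < p) (hp1 : p ≤ 1)
    {f : ℕ → Gm m → ℂ} (hf : IsMartingale m f) (n : ℕ) :
    ∫⁻ x, ‖riesz m f (MM m n) x‖ₑ ^ p ∂(mu m) ≤
      ENNReal.ofReal (Cfin B p) * ∫⁻ x, (⨆ n, ‖f n x‖ₑ) ^ p ∂(mu m) := by
  have hne : (Finset.range (n + 1)).Nonempty := ⟨0, by simp⟩
  set G : ℕ → ℝ := fun x => (Finset.range (n + 1)).sup' hne (fun j => ‖FF f j x‖) with hG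
  have hG1 : ∀ j ≤ n, ∀ x, ‖FF f j x‖ ≤ G x := fun j hj x =>
    Finset.le_sup' (fun j => ‖FF f j x‖) (Finset.mem_range.mpr (by omega))
  have hG0 : ∀ x, 0 ≤ G x := fun x => (norm_nonneg _).trans (hG1 0 (Nat.zero_le n) x)
  have hfin := finite_main hm (FF_mart hm hf) hB hG1 hp hp1
  have hB0 : 0 ≤ B := (Nat.cast_nonneg _).trans (hB 0)
  have hC0 : 0 ≤ Cfin B p := by
    unfold Cfin
    have h1 : 0 < Coff B p := Real.exp_pos _
    have h2 : (1 : ℝ) < 2 ^ p := Real.one_lt_rpow (by norm_num) hp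
    have h3 : 0 < (2 : ℝ) ^ p - 1 := by linarith
    positivity
  -- left side
  have hdepL : Dep m n (fun x => ‖riesz m f (MM m n) x‖ₑ ^ p) := by
    intro x y h
    simp only
    rw [riesz_dep hm f n x y h]
  have hL : ∫⁻ x, ‖riesz m f (MM m n) x‖ₑ ^ p ∂(mu m) = ((MM m n : ℕ) : ℝ≥0∞)⁻¹ *
      ENNReal.ofReal (∑ x ∈ Finset.range (MM m n), ‖Top m n (cw m n) (FF f n) x‖ ^ p) := by
    rw [lint hm hdepL, ENNReal.ofReal_sum_of_nonneg fun x _ =>
      Real.rpow_nonneg (norm_nonneg _) _]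
    congr 1
    refine Finset.sum_congr rfl fun x _ => ?_
    rw [riesz_top hm hf, enorm_rpow _ hp.le]
  -- right side
  set gs : Gm m → ℝ≥0∞ := fun y =>
    ENNReal.ofReal (((Finset.range (n + 1)).sup' hne (fun j => ‖f j y‖)) ^ p) with hgs
  have hdepR : Dep m n gs := by
    intro x y h
    simp only [hgs]
    congr 2
    apply Finset.sup'_congr hne rfl
    intro j hj
    rw [hf.adapted j x y fun k hk => h k (by rw [Finset.mem_range] at hj; omega)]
  have hR1 : ∫⁻ x, gs x ∂(mu m) = ((MM m n : ℕ) : ℝ≥0∞)⁻¹ *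
      ENNReal.ofReal (∑ x ∈ Finset.range (MM m n), G x ^ p) := by
    rw [lint hm hdepR, ENNReal.ofReal_sum_of_nonneg fun x _ => Real.rpow_nonneg (hG0 x) _]
    rfl
  have hR2 : ∫⁻ x, gs x ∂(mu m) ≤ ∫⁻ x, (⨆ n, ‖f n x‖ₑ) ^ p ∂(mu m) := by
    apply lintegral_mono
    intro y
    simp only [hgs]
    obtain ⟨j, hj, hj2⟩ := Finset.exists_mem_eq_sup' hne (fun j => ‖f j y‖)
    rw [hj2, ← enorm_rpow _ hp.le]
    exact ENNReal.rpow_le_rpow (le_iSup (fun n => ‖f n y‖ₑ) j) hp.le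
  rw [hL]
  calc ((MM m n : ℕ) : ℝ≥0∞)⁻¹ *
        ENNReal.ofReal (∑ x ∈ Finset.range (MM m n), ‖Top m n (cw m n) (FF f n) x‖ ^ p)
      ≤ ((MM m n : ℕ) : ℝ≥0∞)⁻¹ *
        ENNReal.ofReal (Cfin B p * ∑ x ∈ Finset.range (MM m n), G x ^ p) := by
        gcongr
    _ = ENNReal.ofReal (Cfin B p) * ∫⁻ x, gs x ∂(mu m) := by
        rw [hR1, ENNReal.ofReal_mul hC0]
        ring
    _ ≤ _ := by gcongr

/-- **Q1 of MP_c47ae4_an has a negative answer, for every bounded Vilenkin sequence and every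
`0 < p ≤ 1`.** The Riesz logarithmic means `R_{M_n}` are bounded from `H_p` to `L_p` uniformly in
`n`; in particular `sup_n ‖R_{M_n} f‖_p < ∞` for every `f ∈ H_p`. -/
theorem result (m : ℕ → ℕ) [∀ k, NeZero (m k)] (hm : ∀ k, 2 ≤ m k)
    (hB : ∃ B : ℕ, ∀ k, m k ≤ B) (p : ℝ) (hp : 0 < p) (hp1 : p ≤ 1) :
    (∃ C : ℝ≥0∞, C ≠ ∞ ∧ ∀ f : ℕ → Gm m → ℂ, IsMartingale m f →
      ∀ n, lpNorm m p (riesz m f (MM m n)) ≤ C * hpNorm m p f) ∧
    ∀ f : ℕ → Gm m → ℂ, IsMartingale m f → hpNorm m p f < ∞ →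
      ⨆ n, lpNorm m p (riesz m f (MM m n)) < ∞ := by
  obtain ⟨B, hB⟩ := hB
  have hB' : ∀ k, (m k : ℝ) ≤ (B : ℝ) := fun k => by exact_mod_cast hB k
  have hpp : 0 ≤ 1 / p := by positivity
  have h1 : ∃ C : ℝ≥0∞, C ≠ ∞ ∧ ∀ f : ℕ → Gm m → ℂ, IsMartingale m f →
      ∀ n, lpNorm m p (riesz m f (MM m n)) ≤ C * hpNorm m p f := by
    refine ⟨ENNReal.ofReal (Cfin B p) ^ (1 / p), ?_, ?_⟩
    · exact ENNReal.rpow_ne_top_of_nonneg hpp ENNReal.ofReal_ne_top
    · intro f hf n
      unfold lpNorm hpNorm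
      rw [← ENNReal.mul_rpow_of_nonneg _ _ hpp]
      exact ENNReal.rpow_le_rpow (main_ineq hm hB' hp hp1 hf n) hpp
  refine ⟨h1, ?_⟩
  obtain ⟨C, hC, h2⟩ := h1
  intro f hf hfin
  refine lt_of_le_of_lt (iSup_le fun n => h2 f hf n) ?_
  exact ENNReal.mul_lt_top hC.lt_top hfin

end Pool.Agent.Results.MP_c47ae4_an.RieszMeans
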